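import Mathlib
import Pool.Agent.Helper554.LE.Defs
import Pool.Agent.Helper554.LE.All
import Pool.Agent.Helper244.Br.Final

/-!
# Maximum Laplacian energy of connected graphs with `n` vertices and `m` edges (MP_f5811f_co)

Let `M(n,m)` be the largest Laplacian energy of a connected graph with `n` vertices and `m` edges.

(1) For every `m` with `n² + 9n ≤ 4m` (and `m ≤ C(n,2)`): write `m = C(a,2) + a(n-a) + j` with
`1 ≤ j ≤ n-a-1` (this is possible for every `m` with `1 ≤ m ≤ C(n,2)`); then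
`M(n,m) = 2 max (a (n - 2m/n), a (n - 2m/n) + (a + 1 + j - 2m/n))`.

(2) For all `n ≥ 2`, `n - 1 ≤ m ≤ C(n,2)`, with
`U(n,m) = max_{0 ≤ s ≤ n} (min (s n, m + s(s+1)/2, 2m) - 2ms/n)`:
`2 U(n,m) - 4(n-2) ≤ M(n,m) ≤ 2 U(n,m)`.
-/

set_option autoImplicit false

namespace Pool.Agent.Results.MP_f5811f_co.MaxEnergy

open Pool.Agent.Helper554.LE

theorem result :
    -- (1) the exact value in the dense half
    (∀ n m : ℕ, 1 ≤ n → n ^ 2 + 9 * n ≤ 4 * m → m ≤ n.choose 2 →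
      (∃ a j : ℕ, 1 ≤ j ∧ a + j + 1 ≤ n ∧ m = a.choose 2 + a * (n - a) + j) ∧
      ∀ a j : ℕ, 1 ≤ j → a + j + 1 ≤ n → m = a.choose 2 + a * (n - a) + j →
        IsGreatest (Energies n m)
          (2 * max (a * (n - 2 * m / n : ℝ))
            (a * (n - 2 * m / n : ℝ) + (a + 1 + j - 2 * m / n)))) ∧
    -- (2) the value up to an additive error `4(n-2)` for all `m`
    (∀ n m : ℕ, 2 ≤ n → n - 1 ≤ m → m ≤ n.choose 2 →
      ∃ M : ℝ, IsGreatest (Energies n m) M ∧
        (∀ s : ℕ, s ≤ n → 2 * Ub n m s - 4 * (n - 2) ≤ M) ∧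
        (∃ s : ℕ, s ≤ n ∧ M ≤ 2 * Ub n m s)) := by
  have hB : BrouwerStatement := fun n G _ t ht => Pool.Br.brouwer_multiset G t ht
  refine ⟨fun n m hn hd hm => ⟨?_, fun a j hj hjn hmj => dense_of_brouwer hB n a j m hj hjn hmj hd⟩,
    fun n m hn h1 h2 => ?_⟩
  · have h : 1 ≤ m := by nlinarith
    obtain ⟨a, j, h1, h2, h3⟩ := decomp n m h hm
    exact ⟨a, j, h1, h2, h3⟩
  · have hne : (Energies n m).Nonempty := by
      obtain ⟨e, he, -⟩ := all_lower n m hn (by omega) h2 0 (Nat.zero_le _)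
      exact ⟨e, he⟩
    obtain ⟨M, hM, hmax⟩ := Set.exists_max_image (Energies n m) id (energies_finite n m) hne
    refine ⟨M, ⟨hM, fun e he => hmax e he⟩, fun s hs => ?_, ?_⟩
    · obtain ⟨e, he, hle⟩ := all_lower n m hn (by omega) h2 s hs
      exact hle.trans (hmax e he)
    · obtain ⟨s, hs, hle⟩ := all_upper hB n m (by omega) hM
      exact ⟨s, hs, hle⟩

end Pool.Agent.Results.MP_f5811f_co.MaxEnergy
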